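import Pool.Agent.H68.GHY.Defs

/-!
Targets of the board ghy: the hybrid fourth moment.
-/

namespace Pool.Agent.H68.GHY

open MeasureTheory Pool.Agent.H34.GM Pool.Agent.H34.GZ Pool.Agent.H34.GU Pool.Agent.H34.GA

/-! ### group A: lattices and volumes -/

/-- the inequality for the exponents -/
def T_IND : Prop := ∀ (m : ℕ) (x y z : Fin m → ℝ) (d : ℝ), Monotone x → Monotone y → Monotone z →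
  (∀ i, y i ≤ x i) → (∀ i, y i ≤ z i) → 0 ≤ d →
    ∑ i, ∑ j, (max (y j - x i) 0 + max (y j - z i) 0 + max (x i - z j - d) 0) ≤
      m * max (∑ i, x i - ∑ i, z i - m * d) 0 +
        ∑ i, ∑ j, (if i < j then (x j - x i) + (y j - y i) + (z j - z i) else 0)

/-- the product estimate -/
def T_EGD : Prop := ∀ (m : ℕ) (c : ℝ), 1 ≤ m → 0 < c → ∃ C : ℝ, 0 < C ∧
  ∀ (d : ℝ) (U B A : Fin m → ℝ) (Q w : ℝ), 0 < d → d ≤ 1 → (∀ i, 0 < U i) → (∀ i, 0 < B i) →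
    (∀ i, 0 < A i) → Monotone U → Monotone B → Monotone A → 0 < Q → 0 < w →
    (∀ i, A i ≤ c * U i) → (∀ i, A i ≤ c * B i) → ∏ i, U i ≤ c * w * ∏ i, A i →
    ∏ i, B i ≤ c * Q * ∏ i, A i → Q * ∏ i, A i ≤ c * ∏ i, B i →
    ∏ i, ∏ j, ((1 + U i / A j) * (1 + B i / A j) * (1 + d * U i / B j)) ≤
      C * w ^ m * Q ^ m * (1 + d ^ m * w / Q) ^ m * skw A * skw U * skw B

open Classical in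
/-- the energy of two sublattices -/
def T_EMD : Prop := ∀ m : ℕ, 1 ≤ m → ∀ C0 ε : ℝ, 0 ≤ C0 → 0 < ε → ∃ (C : ℝ) (K : ℕ), 0 < C ∧
  ∀ d : ℝ, 0 < d → d ≤ 1 →
  ∀ (N : ℕ), 1 ≤ N → ∀ (b n : Mat m) (a : Fin m → ℝ) (k : Mat m), Sgl b n a k →
  1 ≤ aN b → aN b < Real.exp 1 → ∀ Y : ℝ, 1 ≤ Y →
  (∀ i j : Fin m, (i : ℕ) + 1 = j → a j ≤ Y * a i) → ∀ y : ℝ, 1 ≤ y →
  ∀ (sel : AddSubgroup (Fin m → ℤ) → ZM m) (vs : AddSubgroup (Fin m → ℤ) → Fin m → ℝ),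
  Sel b sel vs →
    ∑' M : AddSubgroup (Fin m → ℤ), ∑' L : AddSubgroup (Fin m → ℤ),
      (if M.index = N ∧ y ^ 2 / 4 < (L.index : ℝ) ∧ (L.index : ℝ) ≤ y ^ 2 then
        (NL (sel L) : ENNReal) ^ 2 *
          ENNReal.ofReal (∏ i, ∏ j, (1 + C0 * d * vs L i / vs M j)) else 0) ≤
      ENNReal.ofReal (C * (1 + Real.log (y * Y * N)) ^ K * (N : ℝ) ^ ((m : ℝ) - 1 + ε) *
        y ^ (2 * m) * (1 + d ^ m * y ^ 2 / N) ^ m * skw a)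

/-- number of the integer matrices which kill a vector modulo `N` and have bounded rows -/
def T_CNV : Prop := ∀ (m N : ℕ) [NeZero N] (b n : Mat m) (a : Fin m → ℝ) (k : Mat m),
  1 ≤ m → 2 ≤ N → Sgl b n a k →
  ∀ (sel : AddSubgroup (Fin m → ℤ) → ZM m) (vs : AddSubgroup (Fin m → ℤ) → Fin m → ℝ),
  Sel b sel vs → ∀ (v : Fin m → ℝ) (x : VN m N), Pr x → (∀ i, 0 ≤ v i) →
    {β : ZM m | ac N β x = 0 ∧ ∀ i, rowN (vb (β i) b) ≤ v i}.Finite ∧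
    ({β : ZM m | ac N β x = 0 ∧ ∀ i, rowN (vb (β i) b) ≤ v i}.ncard : ℝ) ≤
      ∏ i, ∏ j, (1 + 2 * v i / vs (kl x) j)

/-- two matrices which are seen by the kernel at the same points are close -/
def T_CLD : Prop := ∀ m : ℕ, 1 ≤ m → ∃ C : ℝ, 0 < C ∧ ∀ (γ γ' : ZM m) (b h : Mat m) (x0 d : ℝ),
  b.det ≠ 0 → h.det ≠ 0 → 0 < x0 → 0 < d → d ≤ 1 / 2 →
  wd x0 d γ.det.natAbs → wd x0 d γ'.det.natAbs →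
  sz (kk (aN (cR γ)) h (cR γ) b - 1) ≤ d → sz (kk (aN (cR γ')) h (cR γ') b - 1) ≤ d →
    ∀ i, rowN (vb ((γ' - γ) i) b) ≤ C * d * rowN (vb (γ i) b)

open Classical in
/-- the volume of the small elements -/
def T_VTH : Prop := ∀ m : ℕ, 1 ≤ m → ∃ C : ℝ, 0 < C ∧ ∀ d : ℝ, 0 < d → d ≤ 1 / 2 →
  ∀ α g : Mat m, α.det ≠ 0 → g.det ≠ 0 →
    ∫⁻ z in Shell m, (if sz (kk (aN α) (mt z) α g - 1) ≤ d then (1 : ENNReal) else 0) ∂(hm m) ≤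
      ENNReal.ofReal (C * d ^ (m ^ 2 - 1))

/-- the mass of the bump functions -/
def T_TBS : Prop := ∀ (m : ℕ) (χ : ℝ → ℝ), 1 ≤ m → Prof χ → ∃ c C : ℝ, 0 < c ∧ 0 < C ∧
  ∀ δ : ℝ, 0 < δ → δ ≤ 1 / 2 →
    c * δ ^ (m ^ 2 - 1) ≤ tb m χ δ ∧ tb m χ δ ≤ C * δ ^ (m ^ 2 - 1)

open Classical in
/-- the square of the majorant -/
def T_H2D : Prop := ∀ m : ℕ, 1 ≤ m → ∃ C C0 : ℝ, 0 < C ∧ 0 ≤ C0 ∧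
  ∀ (N : ℕ) [NeZero N] (D : Set (V m)), 2 ≤ N → DomZ m D → ∀ y x0 d : ℝ, 0 < y → 0 < x0 →
  0 < d → d ≤ 1 / 2 →
  ∀ (b n : Mat m) (a : Fin m → ℝ) (k : Mat m), Sgl b n a k →
  ∀ (sel : AddSubgroup (Fin m → ℤ) → ZM m) (vs : AddSubgroup (Fin m → ℤ) → Fin m → ℝ),
  Sel b sel vs → ∀ x : VN m N, Pr x →
    ∫⁻ h in D, ∑ z : VN m N, (Kd d y x0 b x (mt h) z) ^ 2 ∂(hm m) ≤
      ENNReal.ofReal (C * d ^ (m ^ 2 - 1)) * ∑' L : AddSubgroup (Fin m → ℤ),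
        (if wd x0 d L.index ∧ y ^ 2 / 4 < (L.index : ℝ) ∧ (L.index : ℝ) ≤ y ^ 2 then
          (NL (sel L) : ENNReal) ^ 2 *
            ENNReal.ofReal (∏ i, ∏ j, (1 + C0 * d * vs L i / vs (kl x) j)) else 0)

/-- invariance of the energy -/
def T_EID : Prop := ∀ (m N : ℕ) [NeZero N] (D : Set (V m)) (d y x0 : ℝ) (γ : ZM m) (g : Mat m),
  1 ≤ m → 2 ≤ N → IsUnit γ → Ed N D d y x0 (cR γ * g) = Ed N D d y x0 g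

/-- the energy on `DY`, averaged over the window -/
def T_ENG : Prop := ∀ m : ℕ, 1 ≤ m → ∀ ε : ℝ, 0 < ε → ∃ (C : ℝ) (K : ℕ), 0 < C ∧
  ∀ (N : ℕ) [NeZero N] (D : Set (V m)), 2 ≤ N → DomZ m D → ∀ y Y d : ℝ, 1 ≤ y → 2 ≤ Y →
  0 < d → d ≤ 1 / 2 →
    ∫⁻ x0 in Set.Ioi (0 : ℝ), (∫⁻ g in DY D Y, Ed N D d y x0 (mt g) ∂(hm m)) *
        ENNReal.ofReal x0⁻¹ ≤
      ENNReal.ofReal (C * d ^ (m ^ 2) * (N : ℝ) ^ ((m : ℝ) + ε) *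
        (1 + Real.log (y * Y * N)) ^ K * y ^ (2 * m) * (1 + d ^ m * y ^ 2 / N) ^ m)

/-! ### group B: the operators and the large sieve -/

/-- the coefficients of the matrices -/
def T_CGB : Prop := ∀ (m : ℕ) (y : ℝ) (a : ℕ → ℂ), 1 ≤ m → 0 < y → Coe y a →
  ∀ γ : ZM m, γ.det ≠ 0 → ‖cg a γ‖ ≤ NL γ ∧ (∀ u : ZM m, IsUnit u → cg a (u * γ) = cg a γ) ∧
    (cg a γ ≠ 0 → y ^ 2 / 4 < (γ.det.natAbs : ℝ) ∧ (γ.det.natAbs : ℝ) ≤ y ^ 2)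

/-- composition of the Hecke operators -/
def T_HCP : Prop := ∀ (m N : ℕ) [NeZero N] (T : ℕ → Finset (ZM m)), 1 ≤ m → 2 ≤ N →
  RepsZ m T → ∀ G : Mat m → VN m N → ℂ,
  (∀ γ : ZM m, IsUnit γ → ∀ g x, g.det ≠ 0 → G (cR γ * g) (ac N γ x) = G g x) →
  ∀ (a : ℕ → ℂ) (n : ℕ), 1 ≤ n → ∀ (g : Mat m) (x : VN m N), g.det ≠ 0 →
    ∑ ρ ∈ T n, cg a ρ * G (cR ρ * g) (ac N ρ x) =
      ∑ p ∈ n.divisorsAntidiagonal, a p.1 * a p.2 *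
        ∑ α ∈ T p.1, ∑ β ∈ T p.2, G (cR β * (cR α * g)) (ac N β (ac N α x))

/-- unfolding with a coefficient function -/
def T_UNF : Prop := ∀ (m N : ℕ) [NeZero N] (T : ℕ → Finset (ZM m)) (D : Set (V m)),
  SysZ m N T D → ∀ (F : Mat m → VN m N → ℂ) (lam : ℕ → ℂ), HecA m N T F lam →
  ∀ Φ : Mat m → ℂ, Tg m Φ → ∀ (f : ZM m → ℂ) (X : ℝ),
  (∀ u γ : ZM m, IsUnit u → γ.det ≠ 0 → f (u * γ) = f γ) →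
  (∀ γ : ZM m, f γ ≠ 0 → γ.det ≠ 0 ∧ (γ.det.natAbs : ℝ) ≤ X) →
  ∀ (g : Mat m) (x : VN m N), g.det ≠ 0 →
    ∫ z in D, ∑' γ : ZM m, f γ * (Φ (kk (aN (cR γ)) (mt z) (cR γ) g) * F (mt z) (ac N γ x))
      ∂(hm m) =
    ∑ n ∈ Finset.Icc 1 ⌊X⌋₊, ∑ ρ ∈ T n, f ρ * Rr Φ 1 F (cR ρ * g) (ac N ρ x)

open Classical in
/-- the kernel as a sum and its majorant -/
def T_KCD : Prop := ∀ (m N : ℕ) [NeZero N] (χ : ℝ → ℝ), 1 ≤ m → 2 ≤ N → Prof χ →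
  ∀ (y : ℝ) (a : ℕ → ℂ) (d x0 : ℝ), 1 ≤ y → Coe y a → 0 < d → d ≤ 1 / 2 → 0 < x0 →
    (∀ (g h : Mat m) (x w : VN m N),
      ENNReal.ofReal ‖Kc (bi m χ d) a d x0 g x h w‖ ≤ Kd d y x0 g x h w) ∧
    ∀ (F : VN m N → ℂ), (∀ x, ¬ Pr x → F x = 0) → ∀ (g h : Mat m) (x : VN m N),
      g.det ≠ 0 → h.det ≠ 0 →
      ∑' γ : ZM m, (if γ.det ≠ 0 ∧ wd x0 d γ.det.natAbs then cg a γ else 0) *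
        (bi m χ d (kk (aN (cR γ)) h (cR γ) g) * F (ac N γ x)) =
      ∑ w : VN m N, Kc (bi m χ d) a d x0 g x h w * F w

/-- the eigenvalue of the operator -/
def T_OCD : Prop := ∀ (m N : ℕ) [NeZero N] (T : ℕ → Finset (ZM m)) (D : Set (V m)),
  SysZ m N T D → ∀ (F : Mat m → VN m N → ℂ) (lam : ℕ → ℂ), HecA m N T F lam →
  ∀ (χ : ℝ → ℝ), Prof χ → ∀ (y : ℝ) (a : ℕ → ℂ) (d x0 : ℝ), 1 ≤ y → Coe y a → 0 < d →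
  d ≤ 1 / 2 → 0 < x0 → ∀ (g : Mat m) (x : VN m N), g.det ≠ 0 →
    ∫ z in D, ∑ w : VN m N, Kc (bi m χ d) a d x0 g x (mt z) w * F (mt z) w ∂(hm m) =
      Bs m lam a y d x0 * Rr (bi m χ d) 1 F g x

/-- measurability of the kernels -/
def T_KMD : Prop := ∀ (m N : ℕ) (d y : ℝ) (x w : VN m N), 1 ≤ m →
  Measurable (fun p : ℝ × V m × V m => Kd d y p.1 (mt p.2.1) x (mt p.2.2) w) ∧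
  ∀ Φ : Mat m → ℂ, Tg m Φ → ∀ (a : ℕ → ℂ) (x0 : ℝ),
    Measurable (fun p : V m × V m => Kc Φ a d x0 (mt p.1) x (mt p.2) w)

/-- Bessel's inequality -/
def T_HSD : Prop := ∀ (m N : ℕ) [NeZero N] (T : ℕ → Finset (ZM m)) (D : Set (V m)),
  SysZ m N T D → ∀ (ι : Type) [Fintype ι] [DecidableEq ι] (F : ι → Mat m → VN m N → ℂ)
    (lam : ι → ℕ → ℂ), (∀ i, HecA m N T (F i) (lam i)) →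
  Orthn D F → ∀ (χ : ℝ → ℝ), Prof χ → ∀ (y : ℝ) (a : ℕ → ℂ) (d x0 : ℝ), 1 ≤ y → Coe y a →
  0 < d → d ≤ 1 / 2 → 0 < x0 → ∀ S : Set (V m), S ⊆ D → MeasurableSet S →
    ∑ i, ENNReal.ofReal (‖Bs m (lam i) a y d x0‖ ^ 2) *
      ∑ x, ∫⁻ g in S, ENNReal.ofReal (‖Rr (bi m χ d) 1 (F i) (mt g) x‖ ^ 2) ∂(hm m) ≤
      ∫⁻ g in S, Ed N D d y x0 (mt g) ∂(hm m)

/-- the mass in `DY` -/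
def T_MSD : Prop := ∀ (m : ℕ) (χ : ℝ → ℝ), 1 ≤ m → Prof χ → ∃ (c C : ℝ) (A : ℕ), 0 < c ∧
  1 ≤ C ∧ ∀ (N : ℕ) [NeZero N] (T : ℕ → Finset (ZM m)) (D : Set (V m)), SysZ m N T D →
  ∀ (F : Mat m → VN m N → ℂ) (lam : ℕ → ℂ), CusB m N T F lam →
  nU D F = 1 → ∀ P δ : ℝ, Lip D F P → 0 ≤ P → 0 < δ → δ ≤ 1 / 2 → δ * (1 + P) ≤ c →
  ∀ Y : ℝ, C * N * δ⁻¹ ^ A ≤ Y →
    ENNReal.ofReal (c * tb m χ δ ^ 2) ≤ ∑ x, ∫⁻ z in DY D Y, ENNReal.ofReal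
      (‖Rr (bi m χ δ) 1 F (mt z) x‖ ^ 2) ∂(hm m)

/-- the large sieve for the short sums -/
def T_LSD : Prop := ∀ m : ℕ, 1 ≤ m → ∀ ε : ℝ, 0 < ε → ∃ (c C : ℝ) (K : ℕ), 0 < c ∧ 0 < C ∧
  ∀ (N : ℕ) [NeZero N] (T : ℕ → Finset (ZM m)) (D : Set (V m)), SysZ m N T D →
  ∀ (ι : Type) [Fintype ι] [DecidableEq ι] (F : ι → Mat m → VN m N → ℂ)
    (lam : ι → ℕ → ℂ) (P : ι → ℝ),
  (∀ i, CusB m N T (F i) (lam i) ∧ Lip D (F i) (P i) ∧ 0 ≤ P i) →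
  Orthn D F → ∀ δ : ℝ, 0 < δ → δ ≤ 1 / 2 → (∀ i, δ * (1 + P i) ≤ c) →
  ∀ (y : ℝ) (a : ℕ → ℂ), 1 ≤ y → Coe y a →
    ∑ i, ∫⁻ x0 in Set.Ioi (0 : ℝ), ENNReal.ofReal (‖Bs m (lam i) a y δ x0‖ ^ 2 * x0⁻¹) ≤
      ENNReal.ofReal (C * δ ^ 2 * δ⁻¹ ^ (m ^ 2) * (N : ℝ) ^ ((m : ℝ) + ε) *
        (1 + Real.log (y * N * δ⁻¹)) ^ K * y ^ (2 * m) * (1 + δ ^ m * y ^ 2 / N) ^ m)

open Classical in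
/-- Gallagher's inequality -/
def T_GAL : Prop := ∃ C : ℝ, 0 < C ∧ ∀ d : ℝ, 0 < d → d ≤ 1 / 2 → ∀ (X : ℕ) (b : ℕ → ℂ),
  ∫⁻ t in Set.Icc (-d⁻¹) d⁻¹, ENNReal.ofReal
    (‖∑ k ∈ Finset.Icc 1 X, b k * (k : ℂ) ^ (-((t : ℂ) * Complex.I))‖ ^ 2) ≤
  ENNReal.ofReal (C * d⁻¹ ^ 2) * ∫⁻ x in Set.Ioi (0 : ℝ), ENNReal.ofReal
    (‖∑ k ∈ Finset.Icc 1 X, (if wd x d k then b k else 0)‖ ^ 2 * x⁻¹)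

/-- the square of the Dirichlet polynomial -/
def T_SQD : Prop := ∀ (m : ℕ) (lam a : ℕ → ℂ) (y t : ℝ), 1 ≤ y → Coe y a →
  DP m lam a y t ^ 2 = ∑ k ∈ Finset.Icc 1 ⌊y ^ 2⌋₊, bq m lam a k *
    (k : ℂ) ^ (-((t : ℂ) * Complex.I))

/-- the fourth moment of the Dirichlet polynomials -/
def T_LT4 : Prop := ∀ m : ℕ, 1 ≤ m → ∀ ε : ℝ, 0 < ε → ∃ (c C : ℝ) (K : ℕ), 0 < c ∧ 0 < C ∧
  ∀ (N : ℕ) [NeZero N] (T : ℕ → Finset (ZM m)) (D : Set (V m)), SysZ m N T D →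
  ∀ (ι : Type) [Fintype ι] [DecidableEq ι] (F : ι → Mat m → VN m N → ℂ)
    (lam : ι → ℕ → ℂ) (P : ι → ℝ),
  (∀ i, CusB m N T (F i) (lam i) ∧ Lip D (F i) (P i) ∧ 0 ≤ P i) →
  Orthn D F → ∀ δ : ℝ, 0 < δ → δ ≤ 1 / 2 → (∀ i, δ * (1 + P i) ≤ c) →
  ∀ (y : ℝ) (a : ℕ → ℂ), 1 ≤ y → Coe y a →
    ∑ i, ∫⁻ t in Set.Icc (-δ⁻¹) δ⁻¹, ENNReal.ofReal (‖DP m (lam i) a y t‖ ^ 4) ≤
      ENNReal.ofReal (C * δ⁻¹ ^ (m ^ 2) * (N : ℝ) ^ ((m : ℝ) + ε) *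
        (1 + Real.log (y * N * δ⁻¹)) ^ K * y ^ (2 * m) * (1 + δ ^ m * y ^ 2 / N) ^ m)

/-- the size of an orthonormal family -/
def T_CRD : Prop := ∀ m : ℕ, 1 ≤ m → ∀ ε : ℝ, 0 < ε → ∃ c C : ℝ, 0 < c ∧ 0 < C ∧
  ∀ (N : ℕ) [NeZero N] (T : ℕ → Finset (ZM m)) (D : Set (V m)), SysZ m N T D →
  ∀ (ι : Type) [Fintype ι] [DecidableEq ι] (F : ι → Mat m → VN m N → ℂ)
    (lam : ι → ℕ → ℂ) (P : ι → ℝ),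
  (∀ i, CusB m N T (F i) (lam i) ∧ Lip D (F i) (P i) ∧ 0 ≤ P i) →
  Orthn D F → ∀ δ : ℝ, 0 < δ → δ ≤ 1 / 2 → (∀ i, δ * (1 + P i) ≤ c) →
    (Fintype.card ι : ℝ) * δ⁻¹ ≤ C * ((N : ℝ) * δ⁻¹) ^ ε * (N : ℝ) ^ m * δ⁻¹ ^ (m ^ 2)

/-- the fourth moment of the truncated L-function -/
def T_DYD : Prop := ∀ m : ℕ, 1 ≤ m → ∀ ε A : ℝ, 0 < ε → 1 ≤ A → ∃ c C : ℝ, 0 < c ∧ 0 < C ∧
  ∀ (N : ℕ) [NeZero N] (T : ℕ → Finset (ZM m)) (D : Set (V m)), SysZ m N T D →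
  ∀ (ι : Type) [Fintype ι] [DecidableEq ι] (F : ι → Mat m → VN m N → ℂ)
    (lam : ι → ℕ → ℂ) (P : ι → ℝ),
  (∀ i, CusB m N T (F i) (lam i) ∧ Lip D (F i) (P i) ∧ 0 ≤ P i) →
  Orthn D F → ∀ δ : ℝ, 0 < δ → δ ≤ 1 / 2 → (∀ i, δ * (1 + P i) ≤ c) →
  ∀ X : ℝ, 1 ≤ X →
    X ≤ A * ((N : ℝ) ^ ((1 : ℝ) / 2) * δ⁻¹ ^ ((m : ℝ) / 2)) * ((N : ℝ) * δ⁻¹) ^ ε →
  ∀ τ : ℝ,
    ∑ i, ∫⁻ t in Set.Icc (-δ⁻¹) δ⁻¹, ENNReal.ofReal (‖SD (lam i) X (t + τ)‖ ^ 4) ≤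
      ENNReal.ofReal (C * ((N : ℝ) * δ⁻¹) ^ ((2 * m + 4) * ε) * (N : ℝ) ^ m * δ⁻¹ ^ (m ^ 2))

/-! ### group C: the local factors and the approximate functional equation -/

/-- size of the eigenvalues, uniformly -/
def T_LMV : Prop := ∀ m : ℕ, 1 ≤ m → ∃ C : ℝ, 0 < C ∧
  ∀ (N : ℕ) [NeZero N] (T : ℕ → Finset (ZM m)) (D : Set (V m)), SysZ m N T D →
  ∀ (F : Mat m → VN m N → ℂ) (lam : ℕ → ℂ), HecA m N T F lam → NZ F →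
    ∀ n : ℕ, 1 ≤ n → ‖(n : ℂ) ^ (((m : ℂ) - 1) / 2) * lam n‖ ≤ C * (n : ℝ) ^ m

/-- the L-function does not vanish identically -/
def T_LNZ : Prop := ∀ (m N : ℕ) [NeZero N] (T : ℕ → Finset (ZM m)) (D : Set (V m)),
  SysZ m N T D → ∀ (F : Mat m → VN m N → ℂ) (lam : ℕ → ℂ), HecA m N T F lam → NZ F →
  ∀ L : ℂ → ℂ, IsL m 1 lam L → ∃ s, L s ≠ 0

/-- windows exist -/
def T_WIN : Prop := ∃ (w : ℝ → ℝ) (k : ℝ → ℂ), Win w k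

/-- sharp bounds for the derivatives of the bump functions -/
def T_BIS : Prop := ∀ (m : ℕ) (χ : ℝ → ℝ) (l : ℕ), 1 ≤ m → Prof χ → ∃ C : ℝ, 0 < C ∧
  ∀ δ : ℝ, 0 < δ → δ ≤ 1 / 2 → ∀ z : Mat m,
    ‖(dD^[l] (bi m χ δ)) z‖ ≤ C * δ⁻¹ ^ (m * l) ∧
    ((dD^[l] (bi m χ δ)) z ≠ 0 → sz (z - 1) ≤ δ)

/-- sharp bounds for the Fourier transform of the bump functions -/
def T_FTS : Prop := ∀ (m : ℕ) (χ : ℝ → ℝ) (K : ℕ), 1 ≤ m → Prof χ → ∃ C : ℝ, 0 < C ∧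
  ∀ δ : ℝ, 0 < δ → δ ≤ 1 / 2 → ∀ w : Mat m,
    ‖Pool.Agent.H34.GA.cf (bi m χ δ) w‖ ≤ C * δ ^ (m ^ 2) * (1 + δ * sz w) ^ (-(K : ℝ))

/-- upper bound for the zeta integral -/
def T_ZUB : Prop := ∀ (m : ℕ) (χ : ℝ → ℝ), 1 ≤ m → Prof χ → ∃ C : ℝ, 0 < C ∧
  ∀ δ : ℝ, 0 < δ → δ ≤ 1 / 2 → ∀ f : Mat m → ℂ, Cof m f 1 → ∀ s : ℂ, |s.re| ≤ 1 →
    ‖ZA (PH m χ δ) f s‖ ≤ C

/-- lower bound for the zeta integral -/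
def T_ZLS : Prop := ∀ (m : ℕ) (χ : ℝ → ℝ), 1 ≤ m → Prof χ → ∃ c : ℝ, 0 < c ∧
  ∀ δ : ℝ, 0 < δ → δ ≤ 1 / 2 → ∀ (f : Mat m → ℂ) (mu : Fin m → ℂ), Cof m f 1 → Ifc m mu f →
    (∀ z : Mat m, sz (z - 1) ≤ δ → ‖f z - 1‖ ≤ 1 / 4) →
    ∀ s : ℂ, δ * (1 + ‖s‖) ≤ c →
      c * δ ^ (m ^ 2) * (∏ i : Fin m, ∏ j, ‖s - ((i : ℕ) + 1) - mu j‖) ≤
        ‖ZA (PH m χ δ) f s‖

/-- bounds for the weights -/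
def T_PSB : Prop := ∀ (m : ℕ) (χ : ℝ → ℝ), 1 ≤ m → Prof χ → ∃ r0 : ℝ, 1 < r0 ∧
  ∀ K : ℕ, ∃ C : ℝ, 0 < C ∧ ∀ δ : ℝ, 0 < δ → δ ≤ 1 / 2 → ∀ f : Mat m → ℂ, Cof m f 1 →
    (∀ r : ℝ, 0 < r → ‖uu (Pool.Agent.H34.GA.cf (PH m χ δ)) f r‖ ≤ C * min 1 ((r / δ) ^ K)) ∧
    ContinuousOn (uu (Pool.Agent.H34.GA.cf (PH m χ δ)) f) (Set.Ioi 0) ∧
    ContinuousOn (uu (PH m χ δ) f) (Set.Ioi 0) ∧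
    (∀ r : ℝ, 0 < r → uu (PH m χ δ) f r ≠ 0 → r0⁻¹ ≤ r ∧ r ≤ r0) ∧
    ∀ s : ℂ, MelA m (uu (PH m χ δ) f) s = ZA (PH m χ δ) f s

/-- the functional equation as an identity -/
def T_FEI : Prop := ∀ (m N : ℕ) [NeZero N] (T : ℕ → Finset (ZM m)) (D : Set (V m)),
  SysZ m N T D → ∀ (H : VN m N → ZM m) (xv : VN m N → VN m N), Frk m N H xv →
  ∀ (F : Mat m → VN m N → ℂ) (lam : ℕ → ℂ), CusB m N T F lam → NZ F →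
  ∀ Φ : Mat m → ℂ, TgS m Φ → Adm F (Pool.Agent.H34.GA.cf Φ) → ∀ r : ℝ, 0 < r →
    thA m (uu Φ (c1 D F)) lam r =
      ((r ^ (m ^ 2) * kp m N ^ (-((m : ℝ) ^ 2 / 2)) : ℝ) : ℂ) *
        (starRingEnd ℂ) (thA m (uu (Pool.Agent.H34.GA.cf Φ) (c2 D H xv F)) lam (kp m N / r))

/-- the two local factors have the same absolute value on the critical line -/
def T_UNI : Prop := ∀ (m K : ℕ) (κ : ℝ) (lam : ℕ → ℂ) (L : ℂ → ℂ) (ψ ψ' : ℝ → ℂ) (C1 M : ℝ),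
  1 ≤ m → 0 < κ → m * (m + 2) < K →
  (∀ n : ℕ, 1 ≤ n → ‖(n : ℂ) ^ (((m : ℂ) - 1) / 2) * lam n‖ ≤ C1 * (n : ℝ) ^ m) →
  IsL m 1 lam L → (∃ s, L s ≠ 0) → Wc m ψ lam →
  (∀ s : ℂ, LmA m ψ lam s = L s * MelA m ψ s) →
  ContinuousOn ψ' (Set.Ioi 0) → (∀ r : ℝ, 0 < r → ‖ψ' r‖ ≤ M * min 1 (r ^ K)) →
  (∀ r : ℝ, 0 < r → thA m ψ lam r = ((r ^ (m ^ 2) * κ ^ (-((m : ℝ) ^ 2 / 2)) : ℝ) : ℂ) *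
    (starRingEnd ℂ) (thA m ψ' lam (κ / r))) →
  ∀ t : ℝ, ‖MelA m ψ' (1 / 2 + t * Complex.I)‖ = ‖MelA m ψ (1 / 2 + t * Complex.I)‖

/-- the direct half -/
def T_AFD : Prop := ∀ (w : ℝ → ℝ) (k : ℝ → ℂ), Win w k → ∀ (m : ℕ) (r0 : ℝ), 1 ≤ m → 1 < r0 →
  ∃ C : ℝ, 0 < C ∧ ∀ (ψ : ℝ → ℂ) (lam : ℕ → ℂ) (B : ℝ), ContinuousOn ψ (Set.Ioi 0) →
  (∀ r : ℝ, 0 < r → ψ r ≠ 0 → r0⁻¹ ≤ r ∧ r ≤ r0) → 0 ≤ B →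
  (∀ t : ℝ, ‖MelA m ψ (1 / 2 + t * Complex.I)‖ ≤ B) →
  ∀ R X : ℝ, 1 ≤ R → (3 * r0 * R) ^ m ≤ X → ∀ t : ℝ,
    ‖HW m w R ψ lam t‖ ≤ C * (1 + Real.log R) * B * JK m k lam X t

/-- the dual half -/
def T_AFU : Prop := ∀ (w : ℝ → ℝ) (k : ℝ → ℂ), Win w k → ∀ (m : ℕ) (ε : ℝ), 1 ≤ m → 0 < ε →
  ∃ (K : ℕ) (C : ℝ), 0 < C ∧ ∀ (ψ' : ℝ → ℂ) (lam : ℕ → ℂ) (M B C1 δ : ℝ), 0 < δ → δ ≤ 1 / 2 →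
  0 ≤ M → 0 ≤ B → 0 ≤ C1 → ContinuousOn ψ' (Set.Ioi 0) →
  (∀ r : ℝ, 0 < r → ‖ψ' r‖ ≤ M * min 1 ((r / δ) ^ K)) →
  (∀ n : ℕ, 1 ≤ n → ‖(n : ℂ) ^ (((m : ℂ) - 1) / 2) * lam n‖ ≤ C1 * (n : ℝ) ^ m) →
  (∀ t : ℝ, ‖MelA m ψ' (1 / 2 + t * Complex.I)‖ ≤ B) →
  ∀ R Q X : ℝ, δ ≤ R → 2 ≤ Q → δ⁻¹ ≤ Q → R / δ ≤ Q → (R / δ) ^ m * Q ^ ε ≤ X → ∀ t : ℝ,
    ‖HW m w R ψ' lam t‖ ≤ C * Q ^ ε * (M * C1 + B * JK m k lam X t)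

/-- the splitting of the Mellin integral on the critical line -/
def T_AFS : Prop := ∀ (w : ℝ → ℝ) (k : ℝ → ℂ), Win w k → ∀ (m K : ℕ) (κ : ℝ) (lam : ℕ → ℂ)
  (ψ ψ' : ℝ → ℂ) (C1 M : ℝ), 1 ≤ m → 0 < κ → m * (m + 2) < K →
  (∀ n : ℕ, 1 ≤ n → ‖(n : ℂ) ^ (((m : ℂ) - 1) / 2) * lam n‖ ≤ C1 * (n : ℝ) ^ m) →
  Wc m ψ lam → ContinuousOn ψ' (Set.Ioi 0) →
  (∀ r : ℝ, 0 < r → ‖ψ' r‖ ≤ M * min 1 (r ^ K)) →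
  (∀ r : ℝ, 0 < r → thA m ψ lam r = ((r ^ (m ^ 2) * κ ^ (-((m : ℝ) ^ 2 / 2)) : ℝ) : ℂ) *
    (starRingEnd ℂ) (thA m ψ' lam (κ / r))) →
  ∀ R : ℝ, 0 < R → ∀ t : ℝ, ‖LmA m ψ lam (1 / 2 + t * Complex.I)‖ ≤
    ‖HW m w R ψ lam t‖ + ‖HW m w (κ / R) ψ' lam t‖

/-- the approximate functional equation -/
def T_AFE : Prop := ∀ (w : ℝ → ℝ) (k : ℝ → ℂ), Win w k → ∀ (m : ℕ) (r0 ε : ℝ), 1 ≤ m →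
  1 < r0 → 0 < ε → ∃ (K : ℕ) (C : ℝ), m * (m + 2) < K ∧ 0 < C ∧
  ∀ (κ δ : ℝ) (ψ ψ' : ℝ → ℂ) (lam : ℕ → ℂ) (M B C1 : ℝ), 1 ≤ κ → 0 < δ → δ ≤ 1 / 2 →
  0 ≤ M → 0 ≤ B → 0 ≤ C1 →
  (∀ n : ℕ, 1 ≤ n → ‖(n : ℂ) ^ (((m : ℂ) - 1) / 2) * lam n‖ ≤ C1 * (n : ℝ) ^ m) →
  (∀ r : ℝ, 0 < r → ψ r ≠ 0 → r0⁻¹ ≤ r ∧ r ≤ r0) → Wc m ψ lam →
  ContinuousOn ψ' (Set.Ioi 0) → (∀ r : ℝ, 0 < r → ‖ψ' r‖ ≤ M * min 1 ((r / δ) ^ K)) →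
  (∀ r : ℝ, 0 < r → thA m ψ lam r = ((r ^ (m ^ 2) * κ ^ (-((m : ℝ) ^ 2 / 2)) : ℝ) : ℂ) *
    (starRingEnd ℂ) (thA m ψ' lam (κ / r))) →
  (∀ t : ℝ, ‖MelA m ψ (1 / 2 + t * Complex.I)‖ ≤ B) →
  (∀ t : ℝ, ‖MelA m ψ' (1 / 2 + t * Complex.I)‖ ≤ B) →
  ∀ X t : ℝ, C * (κ / δ) ^ ((m : ℝ) / 2 + ε) ≤ X →
    ‖LmA m ψ lam (1 / 2 + t * Complex.I)‖ ≤ C * (κ / δ) ^ ε * (M * C1 + B * JK m k lam X t)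

/-- one value on the critical line -/
def T_PWB : Prop := ∀ (w : ℝ → ℝ) (k : ℝ → ℂ), Win w k → ∀ (m : ℕ) (ε : ℝ), 1 ≤ m → 0 < ε →
  ∃ c C A : ℝ, 0 < c ∧ 0 < C ∧ 1 ≤ A ∧ ∀ (N : ℕ) [NeZero N] (T : ℕ → Finset (ZM m))
  (D : Set (V m)), SysZ m N T D → ∀ (F : Mat m → VN m N → ℂ) (lam : ℕ → ℂ) (mu : Fin m → ℂ),
  CusA m N T F lam mu → nU D F = 1 → ∀ P δ : ℝ, Lip D F P → 0 ≤ P → 0 < δ → δ ≤ 1 / 2 →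
  δ * (1 + P) ≤ c → ∀ L : ℂ → ℂ, IsL m 1 lam L →
  (∀ ψ : ℝ → ℂ, Wc m ψ lam → ∀ s : ℂ, LmA m ψ lam s = L s * MelA m ψ s) → ∀ t : ℝ,
  δ * |t| ≤ c →
    ‖L (1 / 2 + t * Complex.I)‖ * (δ ^ (m ^ 2) * ∏ i : Fin m, ∏ j,
      ‖(1 / 2 + t * Complex.I : ℂ) - ((i : ℕ) + 1) - mu j‖) ≤
    C * ((N : ℝ) * δ⁻¹) ^ ε * (1 + JK m k lam
      (A * ((N : ℝ) ^ ((1 : ℝ) / 2) * δ⁻¹ ^ ((m : ℝ) / 2)) * ((N : ℝ) * δ⁻¹) ^ ε) t)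

/-- the hybrid fourth moment -/
def T_GBM : Prop := ∀ m : ℕ, 1 ≤ m → ∀ ε : ℝ, 0 < ε → ∃ C : ℝ, 0 < C ∧
  ∀ (N : ℕ) [NeZero N] (T : ℕ → Finset (ZM m)) (D : Set (V m)), SysZ m N T D →
  ∀ P : ℝ, 1 ≤ P → ∀ (ι : Type) [Fintype ι] [DecidableEq ι] (F : ι → Mat m → VN m N → ℂ)
    (lam : ι → ℕ → ℂ) (mu : ι → Fin m → ℂ),
    (∀ i, CusA m N T (F i) (lam i) (mu i) ∧ Lip D (F i) P) → Orthn D F →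
    ∃ L : ι → ℂ → ℂ, (∀ i, IsL m 1 (lam i) (L i)) ∧
      ∑ i, ∫⁻ t in Set.Icc (-P) P, ENNReal.ofReal ((‖L i (1 / 2 + t * Complex.I)‖ *
        ∏ k : Fin m, ∏ j, (‖(1 / 2 + t * Complex.I : ℂ) - ((k : ℕ) + 1) - mu i j‖ / P)) ^ 4) ≤
      ENNReal.ofReal (C * ((N : ℝ) * P) ^ ε * (N : ℝ) ^ m * P ^ (m ^ 2))

end Pool.Agent.H68.GHY
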