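import Pool.Agent.H68.GHY.Targets

/-!
Row EID of the board ghy: invariance of the energy (after Pool/Agent/H36/GU/EIE.lean).
-/

namespace Pool.Agent.H68.GHY

open MeasureTheory Pool.Agent.H34.GM Pool.Agent.H34.GZ Pool.Agent.H34.GU Pool.Agent.H34.GA

theorem pf_EID (hA : T_ALZ) (hB : T_ALU) : T_EID := by
  intro m q _ D d y x0 γ g hm1 hq hγ
  obtain ⟨⟨⟨-, hR⟩, hdet⟩, -, -, -, hun, -, -⟩ := hA m q hm1 hq
  obtain ⟨h1, hM, -, -, -, hbij⟩ := hB m q hm1 hq
  have hnu : γ.det.natAbs = 1 := (hun γ).1 hγ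
  obtain ⟨u, rfl⟩ := hγ
  have hd1 : |(cR (u : ZM m)).det| = 1 := by
    rw [(hdet _).2, hnu]
    norm_num
  -- the number of lattices
  have hNL : ∀ α : ZM m, NL (α * (u : ZM m)) = NL α := by
    intro α
    unfold NL
    -- the automorphism of the row space
    let e : (Fin m → ℤ) ≃+ (Fin m → ℤ) :=
      { toFun := fun v => Matrix.vecMul v (u : ZM m)
        invFun := fun v => Matrix.vecMul v ((u⁻¹ : (ZM m)ˣ) : ZM m)
        left_inv := fun v => by
          simp [Matrix.vecMul_vecMul]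
        right_inv := fun v => by
          simp [Matrix.vecMul_vecMul]
        map_add' := fun v w => Matrix.add_vecMul _ _ _ }
    have he : ∀ i, e (α i) = (α * (u : ZM m)) i := by
      intro i
      rfl
    refine Nat.card_congr ?_
    refine
      { toFun := fun M => ⟨M.1.comap (e : (Fin m → ℤ) →+ (Fin m → ℤ)), fun i => ?_⟩
        invFun := fun M => ⟨M.1.map (e : (Fin m → ℤ) →+ (Fin m → ℤ)), fun i => ?_⟩
        left_inv := fun M => ?_
        right_inv := fun M => ?_ }
    · show e (α i) ∈ M.1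
      rw [he]
      exact M.2 i
    · exact ⟨α i, M.2 i, he i⟩
    · refine Subtype.ext ?_
      exact AddSubgroup.map_comap_eq_self_of_surjective e.surjective _
    · refine Subtype.ext ?_
      exact AddSubgroup.comap_map_eq_self_of_injective e.injective _
  have hK : ∀ (x : VN m q) (h : Mat m) (w : VN m q), Kd d y x0 (cR (u : ZM m) * g) x h w =
      Kd d y x0 g (ac q ((u⁻¹ : (ZM m)ˣ) : ZM m) x) h w := by
    intro x h w
    unfold Kd
    symm
    rw [← Equiv.tsum_eq (Units.mulRight u)]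
    refine tsum_congr fun α => ?_
    have e0 : (Units.mulRight u) α = α * (u : ZM m) := rfl
    rw [e0]
    have e1 : ac q (α * (u : ZM m)) (ac q ((u⁻¹ : (ZM m)ˣ) : ZM m) x) = ac q α x := by
      rw [← (hM _ _ _).1, mul_assoc, Units.mul_inv, mul_one]
    have e2 : (α * (u : ZM m)).det.natAbs = α.det.natAbs := by
      rw [Matrix.det_mul, Int.natAbs_mul, hnu, mul_one]
    have e3 : aN (cR (α * (u : ZM m))) = aN (cR α) := by
      unfold aN
      rw [(hR _ _).1, Matrix.det_mul, abs_mul, hd1, mul_one]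
    have e4 : aN (cR (u : ZM m) * g) = aN g := by
      unfold aN
      rw [Matrix.det_mul, abs_mul, hd1, one_mul]
    have e5 : kk (aN (cR (α * (u : ZM m)))) h (cR (α * (u : ZM m))) g =
        kk (aN (cR α)) h (cR α) (cR (u : ZM m) * g) := by
      unfold kk
      rw [e3, e4, (hR _ _).1]
      simp only [mul_assoc]
    rw [e1, e2, e5, hNL]
  unfold Ed
  simp only [hK]
  exact (hbij _ (Units.isUnit _)).sum_comp fun x =>
    ∫⁻ k in D, ∑ z : VN m q, (Kd d y x0 g x (mt k) z) ^ 2 ∂(hm m)

end Pool.Agent.H68.GHY
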