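import Mathlib

/-!
Board ghy: the sum over the universal family ordered by the analytic conductor, from the bounds for the
dyadic blocks of the sizes at infinity.
-/

namespace Pool.Agent.H68.GHY

/-- logarithms are smaller than powers -/
lemma log_le_pow (e : ℝ) (he : 0 < e) : ∃ C : ℝ, 0 < C ∧ ∀ X : ℝ, 1 ≤ X →
    (1 + Real.log X) ≤ C * X ^ e := by
  refine ⟨1 + 1 / e, by positivity, fun X hX => ?_⟩
  have h1 : Real.log X ≤ X ^ e / e := Real.log_le_rpow_div (by linarith) he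
  have h2 : (1 : ℝ) ≤ X ^ e := Real.one_le_rpow hX he.le
  have h3 : X ^ e / e = 1 / e * X ^ e := by ring
  nlinarith

/-- the dyadic block of a size -/
lemma block_ex (P : ℝ) (hP : 1 ≤ P) : ∃ k : ℕ, (2 : ℝ) ^ k / 2 < P ∧ P ≤ (2 : ℝ) ^ k := by
  have h1 : ∃ k : ℕ, P ≤ (2 : ℝ) ^ k := by
    obtain ⟨k, hk⟩ := pow_unbounded_of_one_lt P (by norm_num : (1 : ℝ) < 2)
    exact ⟨k, hk.le⟩
  classical
  refine ⟨Nat.find h1, ?_, Nat.find_spec h1⟩
  rcases Nat.eq_zero_or_pos (Nat.find h1) with h0 | h0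
  · rw [h0]
    norm_num
    linarith
  · have h2 := Nat.find_min h1 (m := Nat.find h1 - 1) (by omega)
    have h3 : (2 : ℝ) ^ (Nat.find h1) = 2 ^ (Nat.find h1 - 1) * 2 := by
      rw [← pow_succ]
      congr 1
      omega
    rw [h3]
    rw [not_le] at h2
    linarith

open Classical in
/-- the sum over the universal family -/
theorem universal_sum (m : ℕ) (hm : 1 ≤ m) (ε : ℝ) (hε : 0 < ε) : ∃ (e1 C : ℝ), 0 < e1 ∧ 0 < C ∧
    ∀ (C1 : ℝ), 0 ≤ C1 → ∀ (S : ℕ → Type) [∀ N, Fintype (S N)] (P a : ∀ N : ℕ, S N → ℝ),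
    (∀ N : ℕ, 2 ≤ N → ∀ i, 1 ≤ P N i) → (∀ N : ℕ, 2 ≤ N → ∀ i, 0 ≤ a N i) →
    (∀ N : ℕ, 2 ≤ N → ∀ Q : ℝ, 1 ≤ Q →
      ∑ i ∈ Finset.univ.filter (fun i : S N => Q / 2 < P N i ∧ P N i ≤ Q), a N i ≤
        C1 * ((N : ℝ) * Q) ^ e1 * (N : ℝ) ^ m * Q ^ (m ^ 2)) →
    ∀ X : ℝ, 1 ≤ X →
      ∑ N ∈ Finset.Icc 2 ⌊X⌋₊, ∑ i ∈ Finset.univ.filter
        (fun i : S N => (N : ℝ) * P N i ^ ((m : ℝ) ^ 2 / (m + 1)) ≤ X), a N i ≤
        C * C1 * X ^ ((m : ℝ) + 1 + ε) := by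
  -- the exponents
  obtain ⟨e1, he1, he1ε⟩ : ∃ e1 : ℝ, 0 < e1 ∧ 3 * e1 + 2 * e1 ≤ ε :=
    ⟨ε / 5, by positivity, by linarith⟩
  obtain ⟨CL, hCL, hlog⟩ := log_le_pow e1 he1
  have hm0 : (0 : ℝ) < m := by exact_mod_cast hm
  have hm1 : (1 : ℝ) ≤ m := by exact_mod_cast hm
  obtain ⟨α, hα⟩ : ∃ α : ℝ, α = (m : ℝ) ^ 2 / (m + 1) := ⟨_, rfl⟩
  have hα0 : 0 < α := by rw [hα]; positivity
  have hα1 : α * (m + 1) = (m : ℝ) ^ 2 := by rw [hα]; field_simp
  have hα2 : 1 / 2 ≤ α := by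
    rw [hα, div_le_div_iff₀ (by norm_num) (by positivity)]
    nlinarith
  refine ⟨e1, 8 * 2 ^ (3 * e1) * 2 ^ (m ^ 2) * CL * CL, he1, by positivity, ?_⟩
  intro C1 hC1 S _ P a hP ha hB X hX
  have hX0 : 0 < X := by linarith
  rw [← hα]
  -- one level
  have key : ∀ N ∈ Finset.Icc 2 ⌊X⌋₊, ∑ i ∈ Finset.univ.filter
      (fun i : S N => (N : ℝ) * P N i ^ α ≤ X), a N i ≤
      (8 * (CL * X ^ e1)) * (C1 * (2 ^ (3 * e1) * X ^ (3 * e1)) * 2 ^ (m ^ 2) *
        (X ^ (m + 1) / N)) := by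
    intro N hN
    obtain ⟨hN2, hNX⟩ := Finset.mem_Icc.1 hN
    have hNX' : (N : ℝ) ≤ X := (Nat.le_floor_iff hX0.le).1 hNX
    have hN0 : (0 : ℝ) < N := by
      have : 0 < N := by omega
      exact_mod_cast this
    have hN1 : (1 : ℝ) ≤ N := by
      have : 1 ≤ N := by omega
      exact_mod_cast this
    -- the number of blocks
    obtain ⟨K, hK⟩ : ∃ K : ℕ, K = ⌊2 * Real.log X / Real.log 2⌋₊ + 2 := ⟨_, rfl⟩
    have hl2 : 0 < Real.log 2 := Real.log_pos (by norm_num)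
    have hlX : 0 ≤ Real.log X := Real.log_nonneg hX
    -- a block with a form
    have hblk : ∀ i : S N, (N : ℝ) * P N i ^ α ≤ X → ∃ k ∈ Finset.range K,
        (2 : ℝ) ^ k / 2 < P N i ∧ P N i ≤ (2 : ℝ) ^ k := by
      intro i hi
      obtain ⟨k, hk1, hk2⟩ := block_ex (P N i) (hP N hN2 i)
      refine ⟨k, Finset.mem_range.2 ?_, hk1, hk2⟩
      have h1 : P N i ^ α ≤ X := by
        have h2 : 0 ≤ P N i ^ α := Real.rpow_nonneg (by have := hP N hN2 i; linarith) _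
        nlinarith
      have hPp : 0 < P N i := by have := hP N hN2 i; linarith
      have h2 : α * Real.log (P N i) ≤ Real.log X := by
        rw [← Real.log_rpow hPp]
        exact Real.log_le_log (Real.rpow_pos_of_pos hPp _) h1
      have hlP : 0 ≤ Real.log (P N i) := Real.log_nonneg (hP N hN2 i)
      have h3 : Real.log (P N i) ≤ 2 * Real.log X := by nlinarith
      have h4 : (k : ℝ) * Real.log 2 - Real.log 2 < Real.log (P N i) := by
        have h5 : Real.log ((2 : ℝ) ^ k / 2) < Real.log (P N i) :=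
          Real.log_lt_log (by positivity) hk1
        rw [Real.log_div (by positivity) (by norm_num), Real.log_pow] at h5
        exact h5
      have h5 : (k : ℝ) - 1 < 2 * Real.log X / Real.log 2 := by
        rw [lt_div_iff₀ hl2]
        nlinarith
      have h6 : 2 * Real.log X / Real.log 2 < (⌊2 * Real.log X / Real.log 2⌋₊ : ℝ) + 1 :=
        Nat.lt_floor_add_one _
      rw [hK]
      have h7 : (k : ℝ) < ((⌊2 * Real.log X / Real.log 2⌋₊ + 2 : ℕ) : ℝ) := by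
        push_cast
        linarith
      exact_mod_cast h7
    -- the sum over the blocks
    have h1 : ∑ i ∈ Finset.univ.filter (fun i : S N => (N : ℝ) * P N i ^ α ≤ X), a N i ≤
        ∑ k ∈ Finset.range K, ∑ i ∈ Finset.univ.filter (fun i : S N =>
          (N : ℝ) * P N i ^ α ≤ X ∧ (2 : ℝ) ^ k / 2 < P N i ∧ P N i ≤ (2 : ℝ) ^ k), a N i := by
      have e1 : ∀ k ∈ Finset.range K, ∑ i ∈ Finset.univ.filter (fun i : S N =>
          (N : ℝ) * P N i ^ α ≤ X ∧ (2 : ℝ) ^ k / 2 < P N i ∧ P N i ≤ (2 : ℝ) ^ k), a N i =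
          ∑ i : S N, if (N : ℝ) * P N i ^ α ≤ X ∧ (2 : ℝ) ^ k / 2 < P N i ∧
            P N i ≤ (2 : ℝ) ^ k then a N i else 0 := fun k _ => Finset.sum_filter _ _
      rw [Finset.sum_congr rfl e1, Finset.sum_comm, Finset.sum_filter]
      refine Finset.sum_le_sum (fun i _ => ?_)
      by_cases hi : (N : ℝ) * P N i ^ α ≤ X
      · rw [if_pos hi]
        obtain ⟨k, hk, hk'⟩ := hblk i hi
        have h3 := Finset.single_le_sum (f := fun k : ℕ => if (N : ℝ) * P N i ^ α ≤ X ∧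
          (2 : ℝ) ^ k / 2 < P N i ∧ P N i ≤ (2 : ℝ) ^ k then a N i else 0)
          (fun k _ => by
            show 0 ≤ (if _ then a N i else 0)
            split_ifs
            · exact ha N hN2 i
            · exact le_rfl) hk
        refine le_trans (le_of_eq ?_) h3
        exact (if_pos ⟨hi, hk'⟩).symm
      · rw [if_neg hi]
        refine Finset.sum_nonneg (fun k _ => ?_)
        split_ifs
        · exact ha N hN2 i
        · exact le_rfl
    -- one block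
    have h2 : ∀ k ∈ Finset.range K, ∑ i ∈ Finset.univ.filter (fun i : S N =>
        (N : ℝ) * P N i ^ α ≤ X ∧ (2 : ℝ) ^ k / 2 < P N i ∧ P N i ≤ (2 : ℝ) ^ k), a N i ≤
        C1 * (2 ^ (3 * e1) * X ^ (3 * e1)) * 2 ^ (m ^ 2) * (X ^ (m + 1) / N) := by
      intro k _
      by_cases hc : (N : ℝ) * ((2 : ℝ) ^ k / 2) ^ α ≤ X
      · have h3 : ∑ i ∈ Finset.univ.filter (fun i : S N =>
            (N : ℝ) * P N i ^ α ≤ X ∧ (2 : ℝ) ^ k / 2 < P N i ∧ P N i ≤ (2 : ℝ) ^ k), a N i ≤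
            ∑ i ∈ Finset.univ.filter (fun i : S N => (2 : ℝ) ^ k / 2 < P N i ∧
              P N i ≤ (2 : ℝ) ^ k), a N i := by
          refine Finset.sum_le_sum_of_subset_of_nonneg ?_ (fun i _ _ => ha N hN2 i)
          intro i hi
          have hi' := (Finset.mem_filter.1 hi).2
          exact Finset.mem_filter.2 ⟨Finset.mem_univ _, hi'.2⟩
        refine h3.trans ((hB N hN2 ((2 : ℝ) ^ k) (one_le_pow₀ (by norm_num))).trans ?_)
        have hq0 : (0 : ℝ) < (2 : ℝ) ^ k / 2 := by positivity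
        obtain ⟨q, hq⟩ : ∃ q : ℝ, q = (2 : ℝ) ^ k / 2 := ⟨_, rfl⟩
        rw [← hq] at hc hq0
        have h2k : (2 : ℝ) ^ k = 2 * q := by rw [hq]; ring
        rw [h2k]
        -- q ^ α ≤ X / N
        have h4 : q ^ α ≤ X / N := by
          rw [le_div_iff₀ hN0, mul_comm]
          exact hc
        have h5 : q ^ (m ^ 2) ≤ (X / N) ^ (m + 1) := by
          have h6 : q ^ (m ^ 2) = (q ^ α) ^ (m + 1) := by
            rw [← Real.rpow_natCast (q ^ α), ← Real.rpow_mul hq0.le]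
            push_cast
            rw [hα1]
            exact_mod_cast (Real.rpow_natCast q (m ^ 2)).symm
          rw [h6]
          exact pow_le_pow_left₀ (Real.rpow_nonneg hq0.le _) h4 _
        -- q ≤ X ^ 2
        have h7 : q ≤ X ^ 2 := by
          rcases le_or_gt q 1 with h8 | h8
          · exact h8.trans (one_le_pow₀ hX)
          · have h9 : q ^ (1 / 2 : ℝ) ≤ X := by
              have h10 : q ^ (1 / 2 : ℝ) ≤ q ^ α :=
                Real.rpow_le_rpow_of_exponent_le h8.le hα2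
              have h11 : X / N ≤ X := div_le_self hX0.le hN1
              linarith
            have h12 : q = (q ^ (1 / 2 : ℝ)) ^ 2 := by
              rw [← Real.rpow_natCast, ← Real.rpow_mul hq0.le]
              norm_num
            rw [h12]
            exact pow_le_pow_left₀ (Real.rpow_nonneg hq0.le _) h9 2
        have h8 : ((N : ℝ) * (2 * q)) ^ e1 ≤ 2 ^ (3 * e1) * X ^ (3 * e1) := by
          have h9 : (N : ℝ) * (2 * q) ≤ 2 ^ 3 * X ^ 3 := by
            have h10 : (N : ℝ) * (2 * q) ≤ X * (2 * X ^ 2) := by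
              refine mul_le_mul hNX' (by linarith) (by positivity) hX0.le
            have h11 : 0 < X ^ 3 := by positivity
            nlinarith
          have h12 : (2 : ℝ) ^ (3 * e1) * X ^ (3 * e1) = (2 ^ 3 * X ^ 3) ^ e1 := by
            rw [Real.mul_rpow (by positivity) (by positivity), ← Real.rpow_natCast X 3,
              ← Real.rpow_mul hX0.le, ← Real.rpow_natCast (2 : ℝ) 3, ← Real.rpow_mul (by norm_num)]
            norm_num
          rw [h12]
          exact Real.rpow_le_rpow (by positivity) h9 he1.le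
        have h9 : (N : ℝ) ^ m * (2 * q) ^ (m ^ 2) ≤ 2 ^ (m ^ 2) * (X ^ (m + 1) / N) := by
          rw [mul_pow]
          have h10 : (N : ℝ) ^ m * (2 ^ (m ^ 2) * q ^ (m ^ 2)) ≤
              (N : ℝ) ^ m * (2 ^ (m ^ 2) * (X / N) ^ (m + 1)) := by gcongr
          refine h10.trans (le_of_eq ?_)
          rw [div_pow, pow_succ (N : ℝ) m]
          field_simp
        calc C1 * ((N : ℝ) * (2 * q)) ^ e1 * (N : ℝ) ^ m * (2 * q) ^ (m ^ 2) =
            (C1 * ((N : ℝ) * (2 * q)) ^ e1) * ((N : ℝ) ^ m * (2 * q) ^ (m ^ 2)) := by ring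
          _ ≤ (C1 * (2 ^ (3 * e1) * X ^ (3 * e1))) * (2 ^ (m ^ 2) * (X ^ (m + 1) / N)) := by
              refine mul_le_mul (mul_le_mul_of_nonneg_left h8 hC1) h9 (by positivity)
                (by positivity)
          _ = _ := by ring
      · have h3 : Finset.univ.filter (fun i : S N =>
            (N : ℝ) * P N i ^ α ≤ X ∧ (2 : ℝ) ^ k / 2 < P N i ∧ P N i ≤ (2 : ℝ) ^ k) = ∅ := by
          refine Finset.filter_eq_empty_iff.2 ?_
          rintro i - ⟨h4, h5, -⟩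
          refine hc (le_trans ?_ h4)
          refine mul_le_mul_of_nonneg_left ?_ hN0.le
          exact Real.rpow_le_rpow (by positivity) h5.le hα0.le
        rw [h3, Finset.sum_empty]
        positivity
    refine h1.trans ((Finset.sum_le_sum h2).trans ?_)
    rw [Finset.sum_const, Finset.card_range, nsmul_eq_mul]
    refine mul_le_mul_of_nonneg_right ?_ (by positivity)
    -- K ≤ 8 (1 + log X)
    have h3 : (K : ℝ) ≤ 8 * (1 + Real.log X) := by
      rw [hK]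
      push_cast
      have h4 : (⌊2 * Real.log X / Real.log 2⌋₊ : ℝ) ≤ 2 * Real.log X / Real.log 2 :=
        Nat.floor_le (by positivity)
      have h5 : 2 * Real.log X / Real.log 2 ≤ 4 * Real.log X := by
        rw [div_le_iff₀ hl2]
        have h6 : (1 / 2 : ℝ) < Real.log 2 := by
          have := Real.log_two_gt_d9
          linarith
        nlinarith
      linarith
    have h4 := hlog X hX
    linarith
  refine (Finset.sum_le_sum key).trans ?_
  -- the sum of 1 / N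
  have h1 : ∑ N ∈ Finset.Icc 2 ⌊X⌋₊, (1 / (N : ℝ)) ≤ CL * X ^ e1 := by
    have h2 : ∑ N ∈ Finset.Icc 2 ⌊X⌋₊, (1 / (N : ℝ)) ≤
        ∑ N ∈ Finset.Icc 1 ⌊X⌋₊, (1 / (N : ℝ)) := by
      refine Finset.sum_le_sum_of_subset_of_nonneg ?_ (fun i _ _ => by positivity)
      exact Finset.Icc_subset_Icc_left (by norm_num)
    have h3 : ∑ N ∈ Finset.Icc 1 ⌊X⌋₊, (1 / (N : ℝ)) ≤ 1 + Real.log X := by
      have h4 := harmonic_le_one_add_log ⌊X⌋₊
      have h5 : ((harmonic ⌊X⌋₊ : ℚ) : ℝ) = ∑ N ∈ Finset.Icc 1 ⌊X⌋₊, (1 / (N : ℝ)) := by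
        rw [harmonic_eq_sum_Icc]
        push_cast
        refine Finset.sum_congr rfl (fun N _ => by rw [one_div])
      rw [← h5]
      refine h4.trans ?_
      have h6 : (⌊X⌋₊ : ℝ) ≤ X := Nat.floor_le hX0.le
      have h7 : (1 : ℝ) ≤ (⌊X⌋₊ : ℝ) := by
        have : 1 ≤ ⌊X⌋₊ := Nat.le_floor (by exact_mod_cast hX)
        exact_mod_cast this
      have := Real.log_le_log (by linarith) h6
      linarith
    exact (h2.trans h3).trans (hlog X hX)
  have h2 : ∑ N ∈ Finset.Icc 2 ⌊X⌋₊, (8 * (CL * X ^ e1)) *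
      (C1 * (2 ^ (3 * e1) * X ^ (3 * e1)) * 2 ^ (m ^ 2) * (X ^ (m + 1) / N)) =
      (8 * (CL * X ^ e1)) * (C1 * (2 ^ (3 * e1) * X ^ (3 * e1)) * 2 ^ (m ^ 2) * X ^ (m + 1)) *
        ∑ N ∈ Finset.Icc 2 ⌊X⌋₊, (1 / (N : ℝ)) := by
    rw [Finset.mul_sum]
    refine Finset.sum_congr rfl (fun N _ => by ring)
  rw [h2]
  have h3 : (8 * (CL * X ^ e1)) * (C1 * (2 ^ (3 * e1) * X ^ (3 * e1)) * 2 ^ (m ^ 2) *
      X ^ (m + 1)) * ∑ N ∈ Finset.Icc 2 ⌊X⌋₊, (1 / (N : ℝ)) ≤
      (8 * (CL * X ^ e1)) * (C1 * (2 ^ (3 * e1) * X ^ (3 * e1)) * 2 ^ (m ^ 2) *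
      X ^ (m + 1)) * (CL * X ^ e1) := mul_le_mul_of_nonneg_left h1 (by positivity)
  refine h3.trans ?_
  have h4 : X ^ e1 * X ^ (3 * e1) * X ^ (m + 1) * X ^ e1 ≤ X ^ ((m : ℝ) + 1 + ε) := by
    rw [← Real.rpow_natCast X (m + 1), ← Real.rpow_add hX0, ← Real.rpow_add hX0,
      ← Real.rpow_add hX0]
    refine Real.rpow_le_rpow_of_exponent_le hX ?_
    push_cast
    linarith
  calc (8 * (CL * X ^ e1)) * (C1 * (2 ^ (3 * e1) * X ^ (3 * e1)) * 2 ^ (m ^ 2) *
      X ^ (m + 1)) * (CL * X ^ e1) =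
      (8 * 2 ^ (3 * e1) * 2 ^ (m ^ 2) * CL * CL * C1) *
        (X ^ e1 * X ^ (3 * e1) * X ^ (m + 1) * X ^ e1) := by ring
    _ ≤ (8 * 2 ^ (3 * e1) * 2 ^ (m ^ 2) * CL * CL * C1) * X ^ ((m : ℝ) + 1 + ε) :=
        mul_le_mul_of_nonneg_left h4 (by positivity)
    _ = _ := by ring

end Pool.Agent.H68.GHY
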